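import Pool.Agent.Helper3.AK.Goals4

/-! Packet AK-BASE: two generators. -/

namespace Pool.Agent.Helper11.AK

open Equiv Pool.Agent.Helper3.AK Filter Topology

theorem log43 : 1 / 4 ≤ Real.log (4 / 3) := by
  have h := Real.one_sub_inv_le_log_of_pos (show (0 : ℝ) < 4 / 3 by norm_num)
  norm_num at h ⊢
  linarith

theorem log3 : Real.log (√3) ≤ 2 * Real.log (4 / 3) := by
  have h1 : Real.log (√3) ≤ Real.log ((4 / 3) ^ 2) := by
    apply Real.log_le_log (by positivity)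
    rw [Real.sqrt_le_left (by norm_num)]
    norm_num
  rw [Real.log_pow] at h1
  exact_mod_cast h1

theorem sqrt3_le : √3 ≤ (2 : ℝ) := by
  rw [Real.sqrt_le_left (by norm_num)]
  norm_num

theorem exp_le_one_sub {ε : ℝ} (h0 : 0 ≤ ε) (h : ε ≤ 1 / 2) : Real.exp (-(2 * ε)) ≤ 1 - ε := by
  rw [Real.exp_neg]
  have h1 : 1 + 2 * ε ≤ Real.exp (2 * ε) := by
    have := Real.add_one_le_exp (2 * ε)
    linarith
  have h2 : (Real.exp (2 * ε))⁻¹ ≤ (1 + 2 * ε)⁻¹ := inv_anti₀ (by positivity) h1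
  refine h2.trans ?_
  rw [inv_le_iff_one_le_mul₀ (by positivity)]
  nlinarith

/-- one level -/
theorem level (hBL : S_BL) {n r : ℕ} {C₀ C₁ ε : ℝ} (hC₀ : 0 < C₀) (hC₁ : C₁ = 4 * C₀ + 26)
    (hr : 1 ≤ r) (hl : 1 ≤ Real.log n) (hε : 0 < ε) (hε2 : ε ≤ 1 / 2)
    (hε3 : 2 * ε * C₁ ≤ 1 / 32) (h5 : 5 * r ≤ n)
    (hL : 2 * C₁ * (r : ℝ) ^ 2 * Real.log n + 2 ≤ n)
    (hPM : ∀ m : ℕ, C₀ * r * Real.log n ≤ m → (m : ℝ) ≤ C₁ * r * Real.log n →
      PM n r m ≤ Real.exp (-(17 / 16) * r * Real.log n)) :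
    (Nat.card {x : Fin 2 → Alt n // ∃ (f : Fn n r) (μ : ℝ), f ≠ 0 ∧ Zm f ∧ Wk x f = μ • f ∧
      1 - ε < μ} : ℝ) ≤
      (Nat.card (Alt n) : ℝ) ^ 2 * ((27 / 4) * (2 * Real.exp (-(Real.log n / 32))) ^ r) := by
  set ℓ := Real.log n with hℓ
  have hr1 : (1 : ℝ) ≤ r := by exact_mod_cast hr
  have hn0 : (0 : ℝ) < n := by
    rcases Nat.eq_zero_or_pos n with h | h
    · rw [h] at hℓ
      rw [hℓ] at hl
      norm_num at hl
    · exact_mod_cast h
  have hrl : 1 ≤ (r : ℝ) * ℓ := by nlinarith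
  set m₀ := ⌈C₀ * (r * ℓ)⌉₊ with hm₀
  set L := ⌈(2 * C₀ + 12) * (r * ℓ)⌉₊ with hLdef
  have hm₀' : (m₀ : ℝ) ≤ C₀ * (r * ℓ) + 1 := (Nat.ceil_lt_add_one (by positivity)).le
  have hL1 : (2 * C₀ + 12) * (r * ℓ) ≤ L := Nat.le_ceil _
  have hL2 : (L : ℝ) ≤ (2 * C₀ + 12) * (r * ℓ) + 1 := (Nat.ceil_lt_add_one (by positivity)).le
  have hL3 : 2 * (L : ℝ) ≤ C₁ * (r * ℓ) := by
    rw [hC₁]
    nlinarith
  have hcond : 2 * r * (2 * L) + 2 ≤ n := by
    have h1 : (2 * r * (2 * L) + 2 : ℝ) ≤ n := by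
      calc (2 * r * (2 * L) + 2 : ℝ) ≤ 2 * r * (C₁ * (r * ℓ)) + 2 := by
            have := mul_le_mul_of_nonneg_left hL3 (show (0 : ℝ) ≤ 2 * r by positivity)
            linarith
        _ = 2 * C₁ * (r : ℝ) ^ 2 * ℓ + 2 := by ring
        _ ≤ n := hL
    exact_mod_cast h1
  set p := Real.exp (-(17 / 16) * r * ℓ) with hp
  have h := hBL n r L m₀ ε p h5 hcond hε (by linarith) (Real.exp_nonneg _) (by
    intro m hm1 hm2
    apply hPM m
    · have := Nat.le_ceil (C₀ * (r * ℓ))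
      calc C₀ * r * ℓ = C₀ * (r * ℓ) := by ring
        _ ≤ (m₀ : ℝ) := this
        _ ≤ m := by exact_mod_cast hm1
    · calc (m : ℝ) ≤ ((2 * L : ℕ) : ℝ) := by exact_mod_cast hm2
        _ = 2 * (L : ℝ) := by push_cast; ring
        _ ≤ C₁ * (r * ℓ) := hL3
        _ = C₁ * r * ℓ := by ring)
  -- the first term
  have hs : (√3 : ℝ) ^ m₀ * (3 / 4) ^ L ≤ 2 * p := by
    have e1 : (√3 : ℝ) ^ m₀ = Real.exp (m₀ * Real.log (√3)) := by
      rw [mul_comm, Real.exp_mul, Real.exp_log (by positivity), Real.rpow_natCast]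
    have e2 : (3 / 4 : ℝ) ^ L = Real.exp (-(L * Real.log (4 / 3))) := by
      rw [← mul_neg, mul_comm, Real.exp_mul, Real.rpow_natCast, ← Real.log_inv,
        Real.exp_log (by norm_num)]
      norm_num
    have hlog0 : 0 ≤ Real.log (√3) :=
      Real.log_nonneg (Real.one_le_sqrt.2 (by norm_num))
    have e3 : (m₀ : ℝ) * Real.log (√3) ≤ C₀ * (r * ℓ) * Real.log (√3) + Real.log (√3) := by
      nlinarith
    have e4 : (2 * C₀ + 12) * (r * ℓ) * Real.log (4 / 3) ≤ L * Real.log (4 / 3) :=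
      mul_le_mul_of_nonneg_right hL1 (by linarith [log43])
    have e5 : C₀ * (r * ℓ) * Real.log (√3) ≤ C₀ * (r * ℓ) * (2 * Real.log (4 / 3)) :=
      mul_le_mul_of_nonneg_left log3 (by positivity)
    have e6 : 3 * (r * ℓ) ≤ 12 * (r * ℓ) * Real.log (4 / 3) := by
      nlinarith [log43]
    have e7 : (m₀ : ℝ) * Real.log (√3) + -(L * Real.log (4 / 3)) ≤
        Real.log (√3) + -(17 / 16) * r * ℓ := by
      nlinarith
    rw [e1, e2, ← Real.exp_add]
    refine (Real.exp_le_exp.2 e7).trans ?_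
    rw [Real.exp_add, Real.exp_log (by positivity)]
    exact mul_le_mul_of_nonneg_right sqrt3_le (Real.exp_nonneg _)
  have hnr : (n : ℝ) ^ r = Real.exp (r * ℓ) := by
    rw [mul_comm, Real.exp_mul, hℓ, Real.exp_log hn0, Real.rpow_natCast]
  have hε4 : Real.exp (-(r * ℓ / 32)) ≤ (1 - ε) ^ (2 * L) := by
    have h1 : Real.exp (-(2 * ε)) ^ (2 * L) ≤ (1 - ε) ^ (2 * L) :=
      pow_le_pow_left₀ (Real.exp_nonneg _) (exp_le_one_sub hε.le hε2) _
    refine le_trans ?_ h1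
    rw [← Real.exp_nat_mul]
    apply Real.exp_le_exp.2
    push_cast
    have h2 : 2 * ε * (2 * (L : ℝ)) ≤ 2 * ε * (C₁ * (r * ℓ)) :=
      mul_le_mul_of_nonneg_left hL3 (by positivity)
    have h3 : 2 * ε * C₁ * (r * ℓ) ≤ 1 / 32 * (r * ℓ) :=
      mul_le_mul_of_nonneg_right hε3 (by positivity)
    nlinarith
  set N : ℝ := (Nat.card {x : Fin 2 → Alt n // ∃ (f : Fn n r) (μ : ℝ), f ≠ 0 ∧ Zm f ∧
    Wk x f = μ • f ∧ 1 - ε < μ} : ℝ) with hN
  have hN0 : 0 ≤ N := Nat.cast_nonneg _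
  have h2 : N * Real.exp (-(r * ℓ / 32)) ≤ (Nat.card (Alt n) : ℝ) ^ 2 *
      ((27 / 4) * (2 ^ r * Real.exp (-(r * ℓ / 16)))) := by
    refine (mul_le_mul_of_nonneg_left hε4 hN0).trans (h.trans ?_)
    refine mul_le_mul_of_nonneg_left ?_ (by positivity)
    have h3 : (√3 : ℝ) ^ m₀ * (3 / 4) ^ L + p ≤ 3 * p := by linarith
    have h4 : (9 / 4) * (n : ℝ) ^ r * 2 ^ r * ((√3 : ℝ) ^ m₀ * (3 / 4) ^ L + p) ≤
        (9 / 4) * (n : ℝ) ^ r * 2 ^ r * (3 * p) :=
      mul_le_mul_of_nonneg_left h3 (by positivity)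
    refine h4.trans (le_of_eq ?_)
    rw [hnr, hp]
    have h5 : Real.exp (-(r * ℓ / 16)) = Real.exp (r * ℓ) * Real.exp (-(17 / 16) * r * ℓ) := by
      rw [← Real.exp_add]
      congr 1
      ring
    rw [h5]
    ring
  have h3 : N = N * Real.exp (-(r * ℓ / 32)) * Real.exp (r * ℓ / 32) := by
    rw [mul_assoc, ← Real.exp_add, neg_add_cancel, Real.exp_zero, mul_one]
  rw [h3]
  refine (mul_le_mul_of_nonneg_right h2 (Real.exp_nonneg _)).trans (le_of_eq ?_)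
  have h6 : (2 * Real.exp (-(ℓ / 32))) ^ r = 2 ^ r * Real.exp (-(r * ℓ / 16)) *
      Real.exp (r * ℓ / 32) := by
    rw [mul_pow, ← Real.exp_nat_mul, mul_assoc, ← Real.exp_add]
    congr 2
    ring
  rw [h6]
  ring

theorem geo {q : ℝ} (h0 : 0 ≤ q) (h : q ≤ 1 / 2) (R : ℕ) :
    ∑ s ∈ Finset.range R, q ^ (s + 1) ≤ 2 * q := by
  have key : ∑ s ∈ Finset.range R, q ^ (s + 1) ≤ 2 * q * (1 - (1 / 2) ^ R) := by
    induction R with
    | zero => simp
    | succ R ih =>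
      rw [Finset.sum_range_succ]
      have h1 : q ^ R ≤ (1 / 2) ^ R := pow_le_pow_left₀ h0 h R
      have h2 : q ^ (R + 1) ≤ q * (1 / 2) ^ R := by
        rw [pow_succ, mul_comm]
        exact mul_le_mul_of_nonneg_left h1 h0
      have h3 : (1 / 2 : ℝ) ^ (R + 1) = (1 / 2) ^ R * (1 / 2) := pow_succ _ _
      rw [h3]
      nlinarith
  refine key.trans ?_
  have h1 : (0 : ℝ) ≤ (1 / 2) ^ R := by positivity
  nlinarith

/-- the counting argument -/
theorem count (hRED : S_RED) {n : ℕ} {ε α q : ℝ} {R : ℕ} (hq0 : 0 ≤ q) (hq : q ≤ 1 / 2)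
    (hR : ∀ r : ℕ, (r : ℝ) ≤ (n : ℝ) ^ α → r ≤ R)
    (hlev : ∀ r : ℕ, 1 ≤ r → r ≤ R → (Nat.card {x : Fin 2 → Alt n // ∃ (f : Fn n r) (μ : ℝ),
      f ≠ 0 ∧ Zm f ∧ Wk x f = μ • f ∧ 1 - ε < μ} : ℝ) ≤
      (Nat.card (Alt n) : ℝ) ^ 2 * ((27 / 4) * q ^ r)) :
    1 - 27 / 2 * q ≤ (Nat.card {x : Fin 2 → Alt n // ∀ r : ℕ, (r : ℝ) ≤ (n : ℝ) ^ α →
      TupleGap x r ε} : ℝ) / Nat.card (Fin 2 → Alt n) := by
  classical
  have hcard : (Nat.card (Fin 2 → Alt n) : ℝ) = (Nat.card (Alt n) : ℝ) ^ 2 := by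
    rw [Nat.card_pi]
    simp [sq]
  have hA : (0 : ℝ) < Nat.card (Alt n) := by exact_mod_cast Nat.card_pos
  have hpos : (0 : ℝ) < (Nat.card (Alt n) : ℝ) ^ 2 := by positivity
  rw [hcard, le_div_iff₀ hpos]
  set G : Finset (Fin 2 → Alt n) := Finset.univ.filter fun x => ∀ r : ℕ, (r : ℝ) ≤ (n : ℝ) ^ α →
      TupleGap x r ε with hG
  set B : ℕ → Finset (Fin 2 → Alt n) := fun r => Finset.univ.filter fun x =>
    ∃ (f : Fn n r) (μ : ℝ), f ≠ 0 ∧ Zm f ∧ Wk x f = μ • f ∧ 1 - ε < μ with hB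
  have hGc : (Nat.card {x : Fin 2 → Alt n // ∀ r : ℕ, (r : ℝ) ≤ (n : ℝ) ^ α →
      TupleGap x r ε} : ℝ) = G.card := by
    rw [Nat.card_eq_fintype_card, Fintype.card_subtype]
  have hBc : ∀ r, (Nat.card {x : Fin 2 → Alt n // ∃ (f : Fn n r) (μ : ℝ),
      f ≠ 0 ∧ Zm f ∧ Wk x f = μ • f ∧ 1 - ε < μ} : ℝ) = (B r).card := by
    intro r
    rw [Nat.card_eq_fintype_card, Fintype.card_subtype]
  have hsub : Gᶜ ⊆ (Finset.range R).biUnion fun s => B (s + 1) := by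
    intro x hx
    by_contra hnot
    rw [Finset.mem_compl] at hx
    apply hx
    rw [hG, Finset.mem_filter]
    refine ⟨Finset.mem_univ _, fun r hr => ?_⟩
    refine hRED n 2 r x ε fun s hs1 hs2 f μ hf hZ hW => ?_
    by_contra hμ
    rw [not_le] at hμ
    apply hnot
    rw [Finset.mem_biUnion]
    refine ⟨s - 1, Finset.mem_range.2 ?_, ?_⟩
    · have := hR r hr
      omega
    · have hs : s - 1 + 1 = s := by omega
      rw [hs, hB, Finset.mem_filter]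
      exact ⟨Finset.mem_univ _, f, μ, hf, hZ, hW, hμ⟩
  have h1 : (Gᶜ.card : ℝ) ≤ ∑ s ∈ Finset.range R, ((B (s + 1)).card : ℝ) := by
    have := (Finset.card_le_card hsub).trans Finset.card_biUnion_le
    exact_mod_cast this
  have h2 : ∑ s ∈ Finset.range R, ((B (s + 1)).card : ℝ) ≤
      (Nat.card (Alt n) : ℝ) ^ 2 * (27 / 2 * q) := by
    calc ∑ s ∈ Finset.range R, ((B (s + 1)).card : ℝ)
        ≤ ∑ s ∈ Finset.range R, (Nat.card (Alt n) : ℝ) ^ 2 * ((27 / 4) * q ^ (s + 1)) := by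
          refine Finset.sum_le_sum fun s hs => ?_
          rw [← hBc]
          exact hlev (s + 1) (by omega) (Finset.mem_range.1 hs)
      _ = (Nat.card (Alt n) : ℝ) ^ 2 * ((27 / 4) * ∑ s ∈ Finset.range R, q ^ (s + 1)) := by
          rw [Finset.mul_sum, Finset.mul_sum]
      _ ≤ (Nat.card (Alt n) : ℝ) ^ 2 * ((27 / 4) * (2 * q)) := by
          refine mul_le_mul_of_nonneg_left ?_ hpos.le
          exact mul_le_mul_of_nonneg_left (geo hq0 hq R) (by norm_num)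
      _ = (Nat.card (Alt n) : ℝ) ^ 2 * (27 / 2 * q) := by ring
  have h3 : (G.card : ℝ) + (Gᶜ.card : ℝ) = (Nat.card (Alt n) : ℝ) ^ 2 := by
    rw [← hcard, Nat.card_eq_fintype_card, ← Finset.card_add_card_compl G]
    push_cast
    rfl
  rw [hGc]
  nlinarith

/-- Packet AK-BASE. -/
theorem base (h1 : S_RED) (h2 : S_NUMB) (h3 : S_BL) : S_BASE := by
  intro α hα
  set a := max α (1 / 6) with ha
  have ha1 : a < 1 / 3 := max_lt hα (by norm_num)
  have ha0 : 1 / 6 ≤ a := le_max_right _ _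
  obtain ⟨C₀, hC₀, hN⟩ := h2 (1 / 3 - a) (by linarith) (by linarith)
  obtain ⟨C₁, hC₁⟩ : ∃ C₁ : ℝ, C₁ = 4 * C₀ + 26 := ⟨_, rfl⟩
  have hC₁0 : 0 < C₁ := by rw [hC₁]; linarith
  refine ⟨min (1 / 2) (1 / (64 * C₁)), by positivity, ?_⟩
  set ε := min (1 / 2) (1 / (64 * C₁)) with hε
  have hε0 : 0 < ε := by positivity
  have hε2 : ε ≤ 1 / 2 := min_le_left _ _
  have hε3 : 2 * ε * C₁ ≤ 1 / 32 := by
    have : ε ≤ 1 / (64 * C₁) := min_le_right _ _
    rw [le_div_iff₀ (by positivity)] at this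
    linarith
  have hq : Tendsto (fun n : ℕ => 2 * Real.exp (-(Real.log n / 32))) atTop (𝓝 0) := by
    have t1 : Tendsto (fun n : ℕ => Real.log (n : ℝ) / 32) atTop atTop :=
      (Real.tendsto_log_atTop.comp tendsto_natCast_atTop_atTop).atTop_div_const (by norm_num)
    have t2 := (Real.tendsto_exp_neg_atTop_nhds_zero.comp t1).const_mul 2
    simpa using t2
  have hlow : Tendsto (fun n : ℕ => 1 - 27 / 2 * (2 * Real.exp (-(Real.log n / 32)))) atTop
      (𝓝 1) := by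
    have t := (hq.const_mul (27 / 2)).const_sub 1
    simpa using t
  have hn6 : Tendsto (fun n : ℕ => (n : ℝ) ^ (1 / 6 : ℝ)) atTop atTop :=
    (tendsto_rpow_atTop (by norm_num)).comp tendsto_natCast_atTop_atTop
  have hlog : Tendsto (fun n : ℕ => Real.log (n : ℝ)) atTop atTop :=
    Real.tendsto_log_atTop.comp tendsto_natCast_atTop_atTop
  have hC : C₀ < C₁ := by rw [hC₁]; linarith
  refine tendsto_of_tendsto_of_tendsto_of_le_of_le' hlow tendsto_const_nhds ?_ ?_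
  · filter_upwards [hN C₁ hC, hn6.eventually_ge_atTop (12 * C₁ + 2), hlog.eventually_ge_atTop 1,
      hq.eventually_le_const (show (0 : ℝ) < 1 / 2 by norm_num), eventually_ge_atTop 1]
      with n hn ht hl hq2 hn1
    have hn0 : (0 : ℝ) < n := by exact_mod_cast hn1
    have hn1' : (1 : ℝ) ≤ n := by exact_mod_cast hn1
    refine count h1 (R := ⌊(n : ℝ) ^ a⌋₊) (by positivity) hq2 ?_ ?_
    · intro r hr
      apply Nat.le_floor
      exact hr.trans (Real.rpow_le_rpow_of_exponent_le hn1' (le_max_left _ _))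
    · intro r hr1 hr2
      have hra : (r : ℝ) ≤ (n : ℝ) ^ a := (Nat.le_floor_iff (by positivity)).1 hr2
      set t := (n : ℝ) ^ (1 / 6 : ℝ) with htdef
      have ht6 : t ^ 6 = n := by
        rw [htdef, ← Real.rpow_natCast, ← Real.rpow_mul hn0.le]
        norm_num
      have ht1 : 2 ≤ t := by linarith
      have hrt : (r : ℝ) ≤ t ^ 2 := by
        refine hra.trans ((Real.rpow_le_rpow_of_exponent_le hn1' ha1.le).trans (le_of_eq ?_))
        rw [htdef, ← Real.rpow_natCast, ← Real.rpow_mul hn0.le]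
        norm_num
      have hlt : Real.log n ≤ 6 * t := by
        rw [← ht6, Real.log_pow]
        have := Real.log_le_self (show 0 ≤ t by linarith)
        push_cast
        linarith
      have ht0 : 0 < t := by linarith
      have ht2 : 4 ≤ t ^ 2 := by nlinarith
      have ht4 : 5 ≤ t ^ 4 := by nlinarith [mul_self_nonneg (t ^ 2 - 4)]
      refine level h3 hC₀ hC₁ hr1 hl hε0 hε2 hε3 ?_ ?_ ?_
      · have : (5 * r : ℝ) ≤ n := by
          rw [← ht6]
          calc (5 * r : ℝ) ≤ 5 * t ^ 2 := by linarith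
            _ ≤ t ^ 4 * t ^ 2 := mul_le_mul_of_nonneg_right ht4 (by positivity)
            _ = t ^ 6 := by ring
        exact_mod_cast this
      · rw [← ht6]
        have hr0 : (0 : ℝ) ≤ r := Nat.cast_nonneg _
        have e1 : (r : ℝ) ^ 2 ≤ t ^ 4 := by
          calc (r : ℝ) ^ 2 ≤ (t ^ 2) ^ 2 := pow_le_pow_left₀ hr0 hrt 2
            _ = t ^ 4 := by ring
        have e2 : 2 * C₁ * (r : ℝ) ^ 2 * Real.log (t ^ 6) ≤ 2 * C₁ * t ^ 4 * (6 * t) := by
          rw [ht6]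
          refine mul_le_mul (mul_le_mul_of_nonneg_left e1 (by positivity)) hlt (by linarith)
            (by positivity)
        have e3 : (2 : ℝ) ≤ 2 * t ^ 5 := by
          have : 1 ≤ t ^ 5 := one_le_pow₀ (by linarith)
          linarith
        have e4 : (12 * C₁ + 2) * t ^ 5 ≤ t * t ^ 5 :=
          mul_le_mul_of_nonneg_right ht (by positivity)
        nlinarith
      · intro m hm1 hm2
        refine hn r hr1 ?_ m hm1 hm2
        refine hra.trans (le_of_eq ?_)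
        congr 1
        ring
  · refine Eventually.of_forall fun n => ?_
    have h4 : Nat.card {x : Fin 2 → Alt n // ∀ r : ℕ, (r : ℝ) ≤ (n : ℝ) ^ α →
        TupleGap x r ε} ≤ Nat.card (Fin 2 → Alt n) := Nat.card_le_card_of_injective _
          Subtype.val_injective
    exact div_le_one_of_le₀ (by exact_mod_cast h4) (by positivity)

end Pool.Agent.Helper11.AK
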