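import Pool.Agent.Helper3.AK.Goals1

/-! Packet AK-GG: from tuples to the group. -/

namespace Pool.Agent.Helper11.AK

open Equiv Pool.Agent.Helper3.AK

variable {n : ℕ}

theorem exists_perm_ext {r : ℕ} (hr : r ≤ n) (a : Fin r ↪ Fin n) :
    ∃ σ : Perm (Fin n), ∀ i : Fin r, σ (Fin.castLE hr i) = a i := by
  classical
  let e0 : {x : Fin n // x.val < r} ≃ Fin r :=
    { toFun := fun x => ⟨x.1.val, x.2⟩
      invFun := fun i => ⟨Fin.castLE hr i, i.2⟩
      left_inv := fun x => rfl
      right_inv := fun x => rfl }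
  let e : {x : Fin n // x.val < r} ≃ {x : Fin n // x ∈ Set.range a} :=
    e0.trans (Equiv.ofInjective a a.injective)
  refine ⟨e.extendSubtype, fun i => ?_⟩
  rw [Equiv.extendSubtype_apply_of_mem e (Fin.castLE hr i) i.2]
  rfl

/-- the tuple of preimages of the initial points -/
def preTuple {r : ℕ} (hr : r ≤ n) (g : Alt n) : Fin r ↪ Fin n :=
  (Fin.castLEEmb hr).trans ((g⁻¹ : Alt n) : Perm (Fin n)).toEmbedding

theorem preTuple_apply {r : ℕ} (hr : r ≤ n) (g : Alt n) (i : Fin r) :
    preTuple hr g i = ((g⁻¹ : Alt n) : Perm (Fin n)) (Fin.castLE hr i) := rfl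

theorem preTuple_mul {r : ℕ} (hr : r ≤ n) (g x : Alt n) :
    preTuple hr (g * x) = (preTuple hr g).trans ((x⁻¹ : Alt n) : Perm (Fin n)).toEmbedding := by
  ext i
  rw [preTuple_apply, _root_.mul_inv_rev]
  rfl

theorem exists_alt_preTuple {r : ℕ} (hr : r + 2 ≤ n) (a : Fin r ↪ Fin n) :
    ∃ g : Alt n, preTuple (show r ≤ n by omega) g = a := by
  classical
  obtain ⟨σ, hσ⟩ := exists_perm_ext (show r ≤ n by omega) a
  set t : Perm (Fin n) := swap ⟨r, by omega⟩ ⟨r + 1, by omega⟩ with ht
  have hts : Perm.sign t = -1 :=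
    Perm.sign_swap (by intro h; have := congrArg Fin.val h; simp at this)
  have htf : ∀ i : Fin r, t (Fin.castLE (show r ≤ n by omega) i) = Fin.castLE (by omega) i := by
    intro i
    refine swap_apply_of_ne_of_ne ?_ ?_
    · intro h
      have := congrArg Fin.val h
      simp only [Fin.val_castLE] at this
      omega
    · intro h
      have := congrArg Fin.val h
      simp only [Fin.val_castLE] at this
      omega
  by_cases hs : Perm.sign σ = 1
  · refine ⟨⟨σ⁻¹, Perm.mem_alternatingGroup.2 (by rw [Perm.sign_inv, hs])⟩, ?_⟩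
    ext i
    rw [preTuple_apply, ← hσ]
    simp
  · have hs' : Perm.sign σ = -1 := by
      rcases Int.units_eq_one_or (Perm.sign σ) with h2 | h2
      · exact absurd h2 hs
      · exact h2
    refine ⟨⟨(σ * t)⁻¹, Perm.mem_alternatingGroup.2
      (by rw [Perm.sign_inv, map_mul, hs', hts]; rfl)⟩, ?_⟩
    ext i
    rw [preTuple_apply, ← hσ]
    simp [htf]

theorem sum_preTuple {r : ℕ} (hr : r + 2 ≤ n) :
    ∃ c : ℝ, 0 < c ∧ ∀ G : (Fin r ↪ Fin n) → ℝ,
      ∑ g : Alt n, G (preTuple (show r ≤ n by omega) g) = c * ∑ a, G a := by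
  classical
  have hr' : r ≤ n := by omega
  set c := (Finset.univ.filter fun g : Alt n => preTuple hr' g = Fin.castLEEmb hr').card with hc
  have h1mem : (1 : Alt n) ∈ Finset.univ.filter fun g : Alt n =>
      preTuple hr' g = Fin.castLEEmb hr' := by
    rw [Finset.mem_filter]
    refine ⟨Finset.mem_univ _, ?_⟩
    ext i
    rw [preTuple_apply]
    simp
  have hfib : ∀ a : Fin r ↪ Fin n, (Finset.univ.filter fun g : Alt n =>
      preTuple hr' g = a).card = c := by
    intro a
    obtain ⟨τ, hτ⟩ := exists_alt_preTuple hr a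
    rw [hc]
    refine (Finset.card_bij (fun g _ => g * τ) ?_ ?_ ?_).symm
    · intro g hg
      rw [Finset.mem_filter] at hg ⊢
      refine ⟨Finset.mem_univ _, ?_⟩
      rw [preTuple_mul, hg.2, ← hτ]
      ext i
      rfl
    · intro x _ y _ hxy
      exact mul_right_cancel hxy
    · intro g hg
      rw [Finset.mem_filter] at hg
      refine ⟨g * τ⁻¹, ?_, by simp⟩
      rw [Finset.mem_filter]
      refine ⟨Finset.mem_univ _, ?_⟩
      rw [preTuple_mul, hg.2, ← hτ]
      ext i
      show ((((τ⁻¹)⁻¹ : Alt n) : Perm (Fin n)) (preTuple hr' τ i)).val = (Fin.castLE hr' i).val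
      rw [preTuple_apply, inv_inv]
      simp
  refine ⟨c, ?_, fun G => ?_⟩
  · have : 0 < c := Finset.card_pos.2 ⟨1, h1mem⟩
    exact_mod_cast this
  · rw [← Finset.sum_fiberwise (s := Finset.univ) (g := fun g => preTuple hr' g),
      Finset.mul_sum]
    refine Finset.sum_congr rfl fun a _ => ?_
    rw [← hfib a, ← nsmul_eq_mul, ← Finset.sum_const]
    refine Finset.sum_congr rfl fun σ hσ => ?_
    rw [(Finset.mem_filter.1 hσ).2]

/-- Packet AK-GG. -/
theorem gg : S_GG := by
  intro n k r hr z ε hT f hsum hinv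
  have hr' : r ≤ n := by omega
  obtain ⟨c, hc, hG⟩ := sum_preTuple hr
  choose s hs using exists_alt_preTuple hr
  set φ : (Fin r ↪ Fin n) → ℝ := fun a => f (s a) with hφ
  have hf : ∀ g, f g = φ (preTuple hr' g) := by
    intro g
    have h1 := hinv (s (preTuple hr' g) * g⁻¹) g (by
      intro i hi
      have h2 := congrArg (fun a : Fin r ↪ Fin n => a ⟨i.val, hi⟩) (hs (preTuple hr' g))
      simp only [preTuple_apply] at h2
      have h3 : Fin.castLE hr' ⟨i.val, hi⟩ = i := rfl
      rw [h3] at h2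
      rw [Subgroup.coe_mul, Perm.mul_apply, ← h2, Subgroup.coe_inv]
      exact Equiv.apply_symm_apply _ _)
    rw [inv_mul_cancel_right] at h1
    exact h1.symm
  have hwalk : ∀ g, walk z f g = tupleWalk z r φ (preTuple hr' g) := by
    intro g
    unfold walk tupleWalk
    congr 1
    refine Finset.sum_congr rfl fun i _ => ?_
    rw [hf, hf, preTuple_mul, preTuple_mul, inv_inv, add_comm]
    rfl
  have h0 : ∑ a, φ a = 0 := by
    have h1 : ∑ g : Alt n, f g = c * ∑ a, φ a := by
      rw [← hG φ]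
      exact Finset.sum_congr rfl fun g _ => hf g
    rw [hsum] at h1
    rcases mul_eq_zero.1 h1.symm with h2 | h2
    · exact absurd h2 hc.ne'
    · exact h2
  have h1 := hT φ h0
  have h2 : ∑ g, f g * walk z f g = c * ∑ a, φ a * tupleWalk z r φ a := by
    rw [← hG fun a => φ a * tupleWalk z r φ a]
    exact Finset.sum_congr rfl fun g _ => by rw [hwalk, hf]
  have h3 : ∑ g, f g ^ 2 = c * ∑ a, φ a ^ 2 := by
    rw [← hG fun a => φ a ^ 2]
    exact Finset.sum_congr rfl fun g _ => by rw [hf]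
  rw [h2, h3]
  have h4 := mul_le_mul_of_nonneg_left h1 hc.le
  refine h4.trans (le_of_eq ?_)
  ring

end Pool.Agent.Helper11.AK
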